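import Pool.Agent.Q257.AXI.AxF

set_option autoImplicit false

/-! Project AXI (helper67), job AXI-3 (helper257): the four functions of an axisymmetric field. -/

open MeasureTheory Set Metric Filter Topology
open scoped ContDiff
open H459R3.NS Pool.Agent.W268.NS

namespace Pool.Agent.Q257.AXI

open Pool.Agent.Q67.AXI Pool.Agent.TH305.AX Pool.Agent.TH305.DR
open Pool.Agent.W583.MD (sm_pd)
open Pool.Agent.W22.ME.TD (pd_comm)

lemma pd_m {f g : V → ℝ} (hf : ContDiff ℝ ∞ f) (hg : ContDiff ℝ ∞ g) (j : Fin 3) (x : V) :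
    pd j (fun y => y 0 * f y - y 1 * g y) x = (x 0 * pd j f x + (if (0 : Fin 3) = j then 1 else 0) * f x) -
      (x 1 * pd j g x + (if (1 : Fin 3) = j then 1 else 0) * g x) := by
  rw [pd_sub' ((sm_crd 0).mul hf) ((sm_crd 1).mul hg), pd_mulf (sm_crd 0) hf, pd_mulf (sm_crd 1) hg, pd_crd, pd_crd]

lemma pd_p {f g : V → ℝ} (hf : ContDiff ℝ ∞ f) (hg : ContDiff ℝ ∞ g) (j : Fin 3) (x : V) :
    pd j (fun y => y 1 * f y + y 0 * g y) x = (x 1 * pd j f x + (if (1 : Fin 3) = j then 1 else 0) * f x) +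
      (x 0 * pd j g x + (if (0 : Fin 3) = j then 1 else 0) * g x) := by
  rw [pd_add' ((sm_crd 1).mul hf) ((sm_crd 0).mul hg), pd_mulf (sm_crd 1) hf, pd_mulf (sm_crd 0) hg, pd_crd, pd_crd]

lemma f01 : ((0 : Fin 3) = 1) = False := by simp
lemma f02 : ((0 : Fin 3) = 2) = False := by simp
lemma f10 : ((1 : Fin 3) = 0) = False := by simp
lemma f12 : ((1 : Fin 3) = 2) = False := by simp

/-- components of a field -/
noncomputable def dh (v : V → V) (y : V) : ℝ := pd 0 (fun z => v z 0) y + pd 1 (fun z => v z 1) y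
noncomputable def ch (v : V → V) (y : V) : ℝ := pd 0 (fun z => v z 1) y - pd 1 (fun z => v z 0) y

lemma UU_eq (v : V → V) : UU v = AA (dh v) := rfl
lemma WW_eq (v : V → V) : WW v = AA (ch v) := rfl

variable {v : V → V}

lemma sm_dh (hv : ContDiff ℝ ∞ v) : ContDiff ℝ ∞ (dh v) := (sm_pd (sm_cmp hv 0) 0).add (sm_pd (sm_cmp hv 1) 1)
lemma sm_ch (hv : ContDiff ℝ ∞ v) : ContDiff ℝ ∞ (ch v) := (sm_pd (sm_cmp hv 1) 0).sub (sm_pd (sm_cmp hv 0) 1)

lemma sm_vort (hv : ContDiff ℝ ∞ v) : ContDiff ℝ ∞ (vort v) := by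
  rw [contDiff_pi]
  intro i
  fin_cases i
  · exact (sm_pd (sm_cmp hv 2) 1).sub (sm_pd (sm_cmp hv 1) 2)
  · exact (sm_pd (sm_cmp hv 0) 2).sub (sm_pd (sm_cmp hv 2) 0)
  · exact (sm_pd (sm_cmp hv 1) 0).sub (sm_pd (sm_cmp hv 0) 1)

lemma AA_neg (g : V → ℝ) (x : V) : AA (fun y => -g y) x = -AA g x := by
  unfold AA
  rw [← intervalIntegral.integral_neg]
  refine intervalIntegral.integral_congr fun l _ => ?_
  simp only
  ring

/-- the horizontal components -/
lemma comp01 (hv : ContDiff ℝ ∞ v) (ha : Axi v) (x : V) :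
    v x 0 = x 0 * UU v x - x 1 * WW v x ∧ v x 1 = x 1 * UU v x + x 0 * WW v x := by
  constructor
  · have h := avg0 (sm_cmp hv 0) (sm_dh hv).continuous (sm_ch hv).neg.continuous (fun y => by
      obtain ⟨h0, h1⟩ := axi_inf hv ha y
      unfold dh ch RR
      linarith) x
    rw [h, AA_neg, UU_eq, WW_eq]
    ring
  · have h := avg0 (sm_cmp hv 1) (sm_ch hv).continuous (sm_dh hv).continuous (fun y => by
      obtain ⟨h0, h1⟩ := axi_inf hv ha y
      unfold dh ch RR
      linarith) x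
    rw [h, UU_eq, WW_eq]
    ring

lemma rad_rot (ha : Axi v) : AxF (rad v) := by
  intro θ x
  unfold rad
  rw [ha]
  have h := Real.sin_sq_add_cos_sq θ
  show (Real.cos θ * x 0 - Real.sin θ * x 1) * (Real.cos θ * v x 0 - Real.sin θ * v x 1)
    + (Real.sin θ * x 0 + Real.cos θ * x 1) * (Real.sin θ * v x 0 + Real.cos θ * v x 1) = _
  linear_combination (x 0 * v x 0 + x 1 * v x 1) * h

lemma circ_eq (hv : ContDiff ℝ ∞ v) (ha : Axi v) (x : V) : circ v x = sg x * WW v x := by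
  obtain ⟨h0, h1⟩ := comp01 hv ha x
  unfold circ sg
  rw [h0, h1]
  ring

lemma rad_eq (hv : ContDiff ℝ ∞ v) (ha : Axi v) (x : V) : rad v x = sg x * UU v x := by
  obtain ⟨h0, h1⟩ := comp01 hv ha x
  unfold rad sg
  rw [h0, h1]
  ring

lemma axf_UU (hv : ContDiff ℝ ∞ v) (ha : Axi v) : AxF (UU v) := axf_div (rad_eq hv ha) (rad_rot ha)

lemma axf_WW (hv : ContDiff ℝ ∞ v) (ha : Axi v) : AxF (WW v) :=
  axf_div (circ_eq hv ha) (fun θ x => circ_rot ha θ x)

theorem t_Alg : StmAAs → StmAxF → StmAlg := by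
  intro hA hX v hv ha
  have sU : ContDiff ℝ ∞ (UU v) := hA.1 _ (sm_dh hv)
  have sW : ContDiff ℝ ∞ (WW v) := hA.1 _ (sm_ch hv)
  have aU := axf_UU hv ha
  have aW := axf_WW hv ha
  have s2 : ContDiff ℝ ∞ (fun y => v y 2) := sm_cmp hv 2
  have a2 : AxF (fun y => v y 2) := fun θ x => by
    show v (rot θ x) 2 = v x 2
    rw [ha]
    rfl
  obtain ⟨-, -, -, q, sq, aq, hq⟩ := hX _ s2 a2
  obtain ⟨J', hJ'⟩ : ∃ J' : V → ℝ, J' = fun z => -pd 2 (WW v) z := ⟨_, rfl⟩
  obtain ⟨O', hO'⟩ : ∃ O' : V → ℝ, O' = fun z => pd 2 (UU v) z - q z := ⟨_, rfl⟩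
  have sJ' : ContDiff ℝ ∞ J' := by rw [hJ']; exact (sm_pd sW 2).neg
  have sO' : ContDiff ℝ ∞ O' := by rw [hO']; exact (sm_pd sU 2).sub sq
  have aJ' : AxF J' := fun θ x => by
    have := axf_pd2 sW aW θ x
    simp only [hJ']
    rw [this]
  have aO' : AxF O' := fun θ x => by
    have h1 := axf_pd2 sU aU θ x
    have h2 := aq θ x
    simp only [hO']
    rw [h1, h2]
  have e0 : (fun y => v y 0) = fun y => y 0 * UU v y - y 1 * WW v y := funext fun y => (comp01 hv ha y).1
  have e1 : (fun y => v y 1) = fun y => y 1 * UU v y + y 0 * WW v y := funext fun y => (comp01 hv ha y).2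
  have w0 : ∀ z, vort v z 0 = z 0 * J' z - z 1 * O' z := by
    intro z
    show pd 1 (fun y => v y 2) z - pd 2 (fun y => v y 1) z = _
    rw [e1, pd_p sU sW, (hq z).2.1, hJ', hO']
    simp only [f12, f02, if_false]
    ring
  have w1 : ∀ z, vort v z 1 = z 1 * J' z + z 0 * O' z := by
    intro z
    show pd 2 (fun y => v y 0) z - pd 0 (fun y => v y 2) z = _
    rw [e0, pd_m sU sW, (hq z).1, hJ', hO']
    simp only [f12, f02, if_false]
    ring
  have w2 : ∀ z, vort v z 2 = 2 * WW v z + RR (WW v) z := by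
    intro z
    show pd 0 (fun y => v y 1) z - pd 1 (fun y => v y 0) z = _
    exact (hA.2.2.2.1 (ch v) (sm_ch hv) z).symm
  have f0 : (fun z => vort v z 0) = fun z => z 0 * J' z - z 1 * O' z := funext w0
  have f1 : (fun z => vort v z 1) = fun z => z 1 * J' z + z 0 * O' z := funext w1
  have hJ : ∀ x, JJ v x = J' x := by
    intro x
    have h1 : JJ v = AA (dh (vort v)) := rfl
    have h2 : dh (vort v) = fun y => 2 * J' y + RR J' y := by
      funext y
      unfold dh
      rw [f0, f1, pd_m sJ' sO', pd_p sJ' sO']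
      simp only [f01, f10, if_false, if_true]
      have h3 := axf_inf sO' aO' y
      unfold RR
      linarith
    rw [h1, h2, avg1 sJ']
  have hO : ∀ x, OO v x = O' x := by
    intro x
    have h1 : OO v = AA (ch (vort v)) := rfl
    have h2 : ch (vort v) = fun y => 2 * O' y + RR O' y := by
      funext y
      unfold ch
      rw [f0, f1, pd_m sJ' sO', pd_p sJ' sO']
      simp only [f01, f10, if_false, if_true]
      have h3 := axf_inf sJ' aJ' y
      unfold RR
      linarith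
    rw [h1, h2, avg1 sO']
  have gJ : JJ v = J' := funext hJ
  have gO : OO v = O' := funext hO
  have hvort : Axi (vort v) := by
    intro θ x
    have b1 := aJ' θ x
    have b2 := aO' θ x
    funext i
    fin_cases i
    · show vort v (rot θ x) 0 = Real.cos θ * vort v x 0 - Real.sin θ * vort v x 1
      rw [w0, w0, w1, b1, b2]
      show (Real.cos θ * x 0 - Real.sin θ * x 1) * J' x - (Real.sin θ * x 0 + Real.cos θ * x 1) * O' x = _
      ring
    · show vort v (rot θ x) 1 = Real.sin θ * vort v x 0 + Real.cos θ * vort v x 1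
      rw [w1, w0, w1, b1, b2]
      show (Real.sin θ * x 0 + Real.cos θ * x 1) * J' x + (Real.cos θ * x 0 - Real.sin θ * x 1) * O' x = _
      ring
    · show vort v (rot θ x) 2 = vort v x 2
      rw [w2, w2, aW θ x, axf_RR sW aW θ x]
  have hc : circ v = fun y => sg y * WW v y := funext fun y => circ_eq hv ha y
  refine ⟨⟨sU, sW, ?_, ?_⟩, ⟨aU, aW, ?_, ?_⟩, hvort, fun x => ?_⟩
  · rw [gJ]; exact sJ'
  · rw [gO]; exact sO'
  · rw [gJ]; exact aJ'
  · rw [gO]; exact aO'
  · obtain ⟨c0, c1⟩ := comp01 hv ha x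
    have hsgs : ContDiff ℝ ∞ sg := ((sm_crd 0).pow 2).add ((sm_crd 1).pow 2)
    have psg : ∀ j : Fin 3, pd j sg x = (if (0 : Fin 3) = j then 2 * x 0 else 0) + (if (1 : Fin 3) = j then 2 * x 1 else 0) := by
      intro j
      have e : sg = fun y : V => y 0 * y 0 + y 1 * y 1 := by funext y; unfold sg; ring
      rw [e, pd_add' ((sm_crd 0).mul (sm_crd 0)) ((sm_crd 1).mul (sm_crd 1)), pd_mulf (sm_crd 0) (sm_crd 0),
        pd_mulf (sm_crd 1) (sm_crd 1), pd_crd, pd_crd]
      simp only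
      split_ifs <;> ring
    obtain ⟨-, -, -, qW, -, -, hqW⟩ := hX _ sW aW
    obtain ⟨r0, r1, r2⟩ := hqW x
    have hpc : ∀ j : Fin 3, pd j (circ v) x = sg x * pd j (WW v) x + pd j sg x * WW v x := fun j => by
      rw [hc, pd_mulf hsgs sW]
    refine ⟨c0, c1, ?_, ?_, w2 x, ?_, ?_, ?_, circ_eq hv ha x, rad_eq hv ha x, ⟨?_, ?_, ?_, ?_⟩, axf_inf s2 a2 x⟩
    · rw [gJ, gO]; exact w0 x
    · rw [gJ, gO]; exact w1 x
    · rw [gJ, hJ']
    · rw [gO, hO', (hq x).2.2]
      ring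
    · rw [Fin.sum_univ_three]
      have h3 := hA.2.2.2.1 (dh v) (sm_dh hv) x
      rw [← UU_eq] at h3
      rw [h3]
      rfl
    · rw [hpc, psg, w2, r2, r0]
      simp only [f10, if_true, if_false]
      ring
    · rw [hpc, psg, w2, r2, r1]
      simp only [f01, if_true, if_false]
      ring
    · rw [hpc, psg, gJ, hJ']
      simp only [f02, f12, if_false]
      ring
    · unfold rad
      rw [w0, w1, gJ]
      unfold sg
      ring

end Pool.Agent.Q257.AXI
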