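import Pool.Agent.Q67.AXI.Defs

set_option autoImplicit false

/-! Project AXI (helper67), job AXI-2 (helper257): derivatives of axisymmetric functions. -/

open MeasureTheory Set Metric Filter Topology
open scoped ContDiff
open H459R3.NS Pool.Agent.W268.NS

namespace Pool.Agent.Q257.AXI

open Pool.Agent.Q67.AXI Pool.Agent.TH305.AX Pool.Agent.TH305.DR
open Pool.Agent.W583.MD (sm_pd)
open Pool.Agent.W22.ME.TD (pd_comm)

/-- the points of the segment -/
def pl (l : ℝ) (x : V) : V := ![l * x 0, l * x 1, x 2]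

lemma pl0 (l : ℝ) (x : V) : pl l x 0 = l * x 0 := rfl
lemma pl1 (l : ℝ) (x : V) : pl l x 1 = l * x 1 := rfl
lemma pl2 (l : ℝ) (x : V) : pl l x 2 = x 2 := rfl

lemma pl_one (x : V) : pl 1 x = x := by
  funext i
  fin_cases i <;> simp [pl]

lemma pl_cont (x : V) : Continuous fun l : ℝ => pl l x := by
  refine continuous_pi fun i => ?_
  fin_cases i
  · exact continuous_id.mul continuous_const
  · exact continuous_id.mul continuous_const
  · exact continuous_const

lemma pl_hd (x : V) (l : ℝ) : HasDerivAt (fun l => pl l x) ![x 0, x 1, 0] l := by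
  rw [hasDerivAt_pi]
  intro i
  fin_cases i
  · show HasDerivAt (fun l => l * x 0) (x 0) l
    simpa using (hasDerivAt_id l).mul_const (x 0)
  · show HasDerivAt (fun l => l * x 1) (x 1) l
    simpa using (hasDerivAt_id l).mul_const (x 1)
  · show HasDerivAt (fun _ : ℝ => x 2) 0 l
    exact hasDerivAt_const _ _

lemma comp_hd {f : V → ℝ} (hf : ContDiff ℝ ∞ f) (x : V) (l : ℝ) :
    HasDerivAt (fun l => f (pl l x)) (x 0 * pd 0 f (pl l x) + x 1 * pd 1 f (pl l x)) l := by
  have h1 : DifferentiableAt ℝ f (pl l x) := (hf.differentiable (by norm_cast)) _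
  have h2 := h1.hasFDerivAt.comp_hasDerivAt l (pl_hd x l)
  rw [pd_vec, Fin.sum_univ_three] at h2
  have e : (![x 0, x 1, 0] : V) 0 * pd 0 f (pl l x) + (![x 0, x 1, 0] : V) 1 * pd 1 f (pl l x) +
      (![x 0, x 1, 0] : V) 2 * pd 2 f (pl l x) = x 0 * pd 0 f (pl l x) + x 1 * pd 1 f (pl l x) := by
    simp
  rw [e] at h2
  exact h2

lemma AA_eq (g : V → ℝ) (x : V) : AA g x = ∫ l in (0 : ℝ)..1, l * g (pl l x) := rfl

lemma RR_pl (w : V → ℝ) (l : ℝ) (x : V) : RR w (pl l x) = l * (x 0 * pd 0 w (pl l x) + x 1 * pd 1 w (pl l x)) := by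
  unfold RR
  rw [pl0, pl1]
  ring

lemma sm_RR {f : V → ℝ} (hf : ContDiff ℝ ∞ f) : ContDiff ℝ ∞ (RR f) :=
  ((sm_crd 0).mul (sm_pd hf 0)).add ((sm_crd 1).mul (sm_pd hf 1))

/-- the first averaging formula -/
lemma avg0 {w g h : V → ℝ} (hw : ContDiff ℝ ∞ w) (hg : Continuous g) (hh : Continuous h)
    (H : ∀ y, w y + RR w y = y 0 * g y + y 1 * h y) (x : V) : w x = x 0 * AA g x + x 1 * AA h x := by
  have h1 : ∀ l ∈ uIcc (0 : ℝ) 1, HasDerivAt (fun l : ℝ => l * w (pl l x))
      (x 0 * (l * g (pl l x)) + x 1 * (l * h (pl l x))) l := by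
    intro l _
    have h2 := (hasDerivAt_id l).mul (comp_hd hw x l)
    have h3 := H (pl l x)
    rw [RR_pl, pl0, pl1] at h3
    refine h2.congr_deriv ?_
    simp only [id]
    linarith
  have c1 : Continuous fun l : ℝ => x 0 * (l * g (pl l x)) := by
    have := hg.comp (pl_cont x)
    exact continuous_const.mul (continuous_id.mul this)
  have c2 : Continuous fun l : ℝ => x 1 * (l * h (pl l x)) := by
    have := hh.comp (pl_cont x)
    exact continuous_const.mul (continuous_id.mul this)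
  have h4 := intervalIntegral.integral_eq_sub_of_hasDerivAt h1 ((c1.add c2).intervalIntegrable 0 1)
  rw [intervalIntegral.integral_add (c1.intervalIntegrable _ _) (c2.intervalIntegrable _ _),
    intervalIntegral.integral_const_mul, intervalIntegral.integral_const_mul, ← AA_eq, ← AA_eq] at h4
  rw [h4, pl_one]
  ring

/-- the second averaging formula -/
lemma avg1 {G : V → ℝ} (hG : ContDiff ℝ ∞ G) (x : V) : AA (fun y => 2 * G y + RR G y) x = G x := by
  have h1 : ∀ l ∈ uIcc (0 : ℝ) 1, HasDerivAt (fun l : ℝ => l ^ 2 * G (pl l x))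
      (l * (2 * G (pl l x) + RR G (pl l x))) l := by
    intro l _
    have h2 := (hasDerivAt_pow 2 l).mul (comp_hd hG x l)
    refine h2.congr_deriv ?_
    rw [RR_pl]
    push_cast
    ring
  have c1 : Continuous fun l : ℝ => l * (2 * G (pl l x) + RR G (pl l x)) := by
    have h2 := hG.continuous.comp (pl_cont x)
    have h3 := (sm_RR hG).continuous.comp (pl_cont x)
    exact continuous_id.mul ((continuous_const.mul h2).add h3)
  have h4 := intervalIntegral.integral_eq_sub_of_hasDerivAt h1 (c1.intervalIntegrable 0 1)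
  rw [AA_eq, h4, pl_one]
  ring

/-- the rotation as a linear map -/
noncomputable def rotL (θ : ℝ) : V →L[ℝ] V := LinearMap.toContinuousLinearMap
  { toFun := rot θ
    map_add' := fun x y => by
      funext i
      fin_cases i
      · show Real.cos θ * (x 0 + y 0) - Real.sin θ * (x 1 + y 1) =
          (Real.cos θ * x 0 - Real.sin θ * x 1) + (Real.cos θ * y 0 - Real.sin θ * y 1)
        ring
      · show Real.sin θ * (x 0 + y 0) + Real.cos θ * (x 1 + y 1) =
          (Real.sin θ * x 0 + Real.cos θ * x 1) + (Real.sin θ * y 0 + Real.cos θ * y 1)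
        ring
      · rfl
    map_smul' := fun c x => by
      funext i
      fin_cases i
      · show Real.cos θ * (c * x 0) - Real.sin θ * (c * x 1) = c * (Real.cos θ * x 0 - Real.sin θ * x 1)
        ring
      · show Real.sin θ * (c * x 0) + Real.cos θ * (c * x 1) = c * (Real.sin θ * x 0 + Real.cos θ * x 1)
        ring
      · rfl }

lemma rotL_app (θ : ℝ) (x : V) : rotL θ x = rot θ x := rfl

lemma fd_rot {f : V → ℝ} (hf : ContDiff ℝ ∞ f) (ha : AxF f) (θ : ℝ) (x w : V) :
    fderiv ℝ f (rot θ x) (rot θ w) = fderiv ℝ f x w := by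
  have h1 : DifferentiableAt ℝ f (rot θ x) := (hf.differentiable (by norm_cast)) _
  have h2 : HasFDerivAt (fun y => f (rotL θ y)) ((fderiv ℝ f (rot θ x)).comp (rotL θ)) x :=
    h1.hasFDerivAt.comp x (rotL θ).hasFDerivAt
  have h3 : (fun y => f (rotL θ y)) = f := funext fun y => ha θ y
  rw [h3] at h2
  rw [h2.fderiv]
  rfl

lemma rot_fix {x : V} (hx : sg x = 0) (θ : ℝ) : rot θ x = x := by
  have h0 : x 0 = 0 := by unfold sg at hx; nlinarith [sq_nonneg (x 0), sq_nonneg (x 1)]
  have h1 : x 1 = 0 := by unfold sg at hx; nlinarith [sq_nonneg (x 0), sq_nonneg (x 1)]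
  funext i
  fin_cases i
  · show Real.cos θ * x 0 - Real.sin θ * x 1 = x 0
    rw [h0, h1]; ring
  · show Real.sin θ * x 0 + Real.cos θ * x 1 = x 1
    rw [h0, h1]; ring
  · rfl

/-- dividing by the square of the radius -/
lemma axf_div {F G : V → ℝ} (h : ∀ x, F x = sg x * G x) (hF : AxF F) : AxF G := by
  intro θ x
  by_cases hx : sg x = 0
  · rw [rot_fix hx]
  · have h1 := hF θ x
    rw [h, h, sg_rot] at h1
    exact mul_left_cancel₀ hx h1

lemma axf_inf {f : V → ℝ} (hf : ContDiff ℝ ∞ f) (ha : AxF f) (x : V) : x 0 * pd 1 f x = x 1 * pd 0 f x := by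
  have h1 : DifferentiableAt ℝ f (rot 0 x) := (hf.differentiable (by norm_cast)) _
  have h2 := h1.hasFDerivAt.comp_hasDerivAt (0 : ℝ) (rot_hd x)
  rw [rot_zero, pd_vec, Fin.sum_univ_three] at h2
  have h3 : HasDerivAt (fun _ : ℝ => f x) 0 0 := hasDerivAt_const _ _
  have h4 : (f ∘ fun θ => rot θ x) = fun _ => f x := funext fun θ => ha θ x
  rw [h4] at h2
  have h5 := h2.unique h3
  simp at h5
  linarith

lemma axf_RR {f : V → ℝ} (hf : ContDiff ℝ ∞ f) (ha : AxF f) : AxF (RR f) := by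
  have h1 : ∀ x, RR f x = fderiv ℝ f x ![x 0, x 1, 0] := by
    intro x
    rw [pd_vec, Fin.sum_univ_three]
    simp [RR]
  intro θ x
  rw [h1, h1, ← fd_rot hf ha θ x]
  congr 1

lemma axf_pd2 {f : V → ℝ} (hf : ContDiff ℝ ∞ f) (ha : AxF f) : AxF (pd 2 f) := by
  intro θ x
  unfold pd
  rw [← fd_rot hf ha θ x]
  congr 1
  funext i
  fin_cases i
  · show (Pi.single (M := fun _ : Fin 3 => ℝ) 2 1) 0 = Real.cos θ * (Pi.single (M := fun _ : Fin 3 => ℝ) 2 1) 0 -
      Real.sin θ * (Pi.single (M := fun _ : Fin 3 => ℝ) 2 1) 1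
    simp
  · show (Pi.single (M := fun _ : Fin 3 => ℝ) 2 1) 1 = Real.sin θ * (Pi.single (M := fun _ : Fin 3 => ℝ) 2 1) 0 +
      Real.cos θ * (Pi.single (M := fun _ : Fin 3 => ℝ) 2 1) 1
    simp
  · rfl

theorem t_AxF : StmAAs → StmAxF := by
  intro hA f hf ha
  refine ⟨axf_inf hf ha, axf_RR hf ha, axf_pd2 hf ha, ?_⟩
  obtain ⟨g, hg⟩ : ∃ g : V → ℝ, g = fun y => pd 0 (pd 0 f) y + pd 1 (pd 1 f) y := ⟨_, rfl⟩
  have hgs : ContDiff ℝ ∞ g := by
    rw [hg]
    exact (sm_pd (sm_pd hf 0) 0).add (sm_pd (sm_pd hf 1) 1)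
  have hfun : (fun y : V => y 0 * pd 1 f y) = fun y => y 1 * pd 0 f y := funext fun y => axf_inf hf ha y
  have hd : ∀ (j : Fin 3) (y : V), y 0 * pd j (pd 1 f) y + (if (0 : Fin 3) = j then 1 else 0) * pd 1 f y =
      y 1 * pd j (pd 0 f) y + (if (1 : Fin 3) = j then 1 else 0) * pd 0 f y := by
    intro j y
    have h1 : pd j (fun y : V => y 0 * pd 1 f y) y = pd j (fun y => y 1 * pd 0 f y) y := by rw [hfun]
    rw [pd_mulf (sm_crd 0) (sm_pd hf 1), pd_mulf (sm_crd 1) (sm_pd hf 0), pd_crd, pd_crd] at h1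
    exact h1
  have hc : pd 0 (pd 1 f) = pd 1 (pd 0 f) := pd_comm hf 0 1
  have h0 : ∀ x, pd 0 f x = x 0 * AA g x := by
    intro x
    have h1 := avg0 (sm_pd hf 0) hgs.continuous (continuous_const (y := (0 : ℝ))) (fun y => by
      have h2 := hd 1 y
      have e1 : ((0 : Fin 3) = 1) = False := by simp
      simp only [e1, if_true, if_false] at h2
      rw [hg]
      unfold RR
      linarith) x
    rw [h1]
    have h2 : AA (fun _ => (0 : ℝ)) x = 0 := by simp [AA]
    rw [h2, mul_zero, add_zero]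
  have h1 : ∀ x, pd 1 f x = x 1 * AA g x := by
    intro x
    have h1 := avg0 (sm_pd hf 1) (continuous_const (y := (0 : ℝ))) hgs.continuous (fun y => by
      have h2 := hd 0 y
      have e1 : ((1 : Fin 3) = 0) = False := by simp
      simp only [e1, if_true, if_false] at h2
      rw [hg]
      unfold RR
      linarith) x
    rw [h1]
    have h2 : AA (fun _ => (0 : ℝ)) x = 0 := by simp [AA]
    rw [h2, mul_zero, zero_add]
  have h2 : ∀ x, RR f x = sg x * AA g x := by
    intro x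
    unfold RR sg
    rw [h0, h1]
    ring
  exact ⟨AA g, hA.1 g hgs, axf_div h2 (axf_RR hf ha), fun x => ⟨h0 x, h1 x, h2 x⟩⟩

end Pool.Agent.Q257.AXI
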