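import Pool.Agent.Q257.AXI.Alg

set_option autoImplicit false

/-! Project AXI (helper67), job AXI-4 (helper257): the elliptic equation of `UU`. -/

open MeasureTheory Set Metric Filter Topology
open scoped ContDiff
open H459R3.NS Pool.Agent.W268.NS

namespace Pool.Agent.Q257.AXI

open Pool.Agent.Q67.AXI Pool.Agent.TH305.AX Pool.Agent.TH305.DR Pool.Agent.Q85.CL
open Pool.Agent.W583.MD (sm_pd)
open Pool.Agent.W22.ME.TD (pd_comm)

lemma sg_sm : ContDiff ℝ ∞ sg := ((sm_crd 0).pow 2).add ((sm_crd 1).pow 2)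

lemma sg_pd (j : Fin 3) (x : V) : pd j sg x = (if (0 : Fin 3) = j then 2 * x 0 else 0) + (if (1 : Fin 3) = j then 2 * x 1 else 0) := by
  have e : sg = fun y : V => y 0 * y 0 + y 1 * y 1 := by funext y; unfold sg; ring
  rw [e, pd_add' ((sm_crd 0).mul (sm_crd 0)) ((sm_crd 1).mul (sm_crd 1)), pd_mulf (sm_crd 0) (sm_crd 0),
    pd_mulf (sm_crd 1) (sm_crd 1), pd_crd, pd_crd]
  simp only
  split_ifs <;> ring

lemma RR_congr {f g : V → ℝ} {x : V} (h : f =ᶠ[𝓝 x] g) : RR f x = RR g x := by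
  unfold RR
  rw [(pd_congr_nhds h 0).eq_of_nhds, (pd_congr_nhds h 1).eq_of_nhds]

lemma RR_add {f g : V → ℝ} (hf : ContDiff ℝ ∞ f) (hg : ContDiff ℝ ∞ g) (x : V) :
    RR (fun y => f y + g y) x = RR f x + RR g x := by
  unfold RR
  rw [pd_add' hf hg, pd_add' hf hg]
  ring

lemma RR_mul {f g : V → ℝ} (hf : ContDiff ℝ ∞ f) (hg : ContDiff ℝ ∞ g) (x : V) :
    RR (fun y => f y * g y) x = f x * RR g x + RR f x * g x := by
  unfold RR
  rw [pd_mulf hf hg, pd_mulf hf hg]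
  ring

lemma RR_sg (x : V) : RR sg x = 2 * sg x := by
  unfold RR
  rw [sg_pd, sg_pd]
  simp only [f01, f10, if_true, if_false]
  unfold sg
  ring

lemma pd2_RR {f : V → ℝ} (hf : ContDiff ℝ ∞ f) (x : V) : pd 2 (RR f) x = RR (pd 2 f) x := by
  have e : RR f = fun y => y 0 * pd 0 f y + y 1 * pd 1 f y := rfl
  rw [e, pd_add' ((sm_crd 0).mul (sm_pd hf 0)) ((sm_crd 1).mul (sm_pd hf 1)), pd_mulf (sm_crd 0) (sm_pd hf 0),
    pd_mulf (sm_crd 1) (sm_pd hf 1), pd_crd, pd_crd, pd_comm hf 2 0, pd_comm hf 2 1]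
  simp only [f02, f12, if_false]
  unfold RR
  ring

lemma sq4 (a b c d : ℝ) : (a + b - (c + d)) ^ 2 ≤ 4 * (a ^ 2 + b ^ 2 + c ^ 2 + d ^ 2) := by
  nlinarith [sq_nonneg (a - b), sq_nonneg (a + c), sq_nonneg (a + d), sq_nonneg (b + c), sq_nonneg (b + d), sq_nonneg (c - d)]

lemma sq4' (a b c d : ℝ) : (a + b + (c + d)) ^ 2 ≤ 4 * (a ^ 2 + b ^ 2 + c ^ 2 + d ^ 2) := by
  nlinarith [sq_nonneg (a - b), sq_nonneg (a - c), sq_nonneg (a - d), sq_nonneg (b - c), sq_nonneg (b - d), sq_nonneg (c - d)]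

theorem t_Div : StmAAs → StmAxF → StmAlg → StmDiv := by
  intro _ hX hAlg
  refine ⟨16, by norm_num, fun O v hO hv ha hdiv x hx hsx => ?_⟩
  obtain ⟨⟨sU, sW, sJ, sO⟩, ⟨aU, aW, aJ, aO⟩, -, hid⟩ := hAlg v hv ha
  have s2 : ContDiff ℝ ∞ (fun y => v y 2) := sm_cmp hv 2
  have a2 : AxF (fun y => v y 2) := fun θ x => by
    show v (rot θ x) 2 = v x 2
    rw [ha]
    rfl
  obtain ⟨-, -, -, q, sq, aq, hq⟩ := hX _ s2 a2
  obtain ⟨-, -, -, qU, sqU, aqU, hqU⟩ := hX _ sU aU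
  have hOO : ∀ y, sg y * OO v y = sg y * pd 2 (UU v) y - RR (fun z => v z 2) y := fun y => (hid y).2.2.2.2.2.2.1
  have hD : ∀ y, ∑ i, pd i (fun z => v z i) y = 2 * UU v y + RR (UU v) y + pd 2 (fun z => v z 2) y := fun y =>
    (hid y).2.2.2.2.2.2.2.1
  constructor
  · -- the elliptic equation
    have h1 : pd 2 (fun y => sg y * OO v y) x = pd 2 (fun y => sg y * pd 2 (UU v) y - RR (fun z => v z 2) y) x := by
      rw [show (fun y => sg y * OO v y) = fun y => sg y * pd 2 (UU v) y - RR (fun z => v z 2) y from funext hOO]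
    rw [pd_mulf sg_sm sO, pd_sub' (sg_sm.mul (sm_pd sU 2)) (sm_RR s2), pd_mulf sg_sm (sm_pd sU 2)] at h1
    beta_reduce at h1
    rw [sg_pd, pd2_RR s2] at h1
    simp only [f02, f12, if_false, add_zero, zero_mul] at h1
    have h2 : RR (pd 2 fun z => v z 2) x = RR (fun y => (-2) * UU v y + (-1) * RR (UU v) y) x := by
      apply RR_congr
      filter_upwards [hO.mem_nhds hx] with y hy
      have h3 := hdiv y hy
      rw [hD] at h3
      linarith
    rw [RR_add (contDiff_const.mul sU) (contDiff_const.mul (sm_RR sU)), RR_mul contDiff_const sU,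
      RR_mul contDiff_const (sm_RR sU)] at h2
    have c1 : ∀ c : ℝ, RR (fun _ => c) x = 0 := fun c => by
      unfold RR
      rw [pd_const', pd_const']
      ring
    rw [c1, c1] at h2
    have h4 : RR (RR (UU v)) x = 2 * sg x * qU x + sg x * RR qU x := by
      have e : RR (UU v) = fun y => sg y * qU y := funext fun y => (hqU y).2.2
      rw [e, RR_mul sg_sm sqU, RR_sg]
      ring
    have h5 : RR (UU v) x = sg x * qU x := (hqU x).2.2
    have h6 : lap (UU v) x = 2 * qU x + RR qU x + pd 2 (pd 2 (UU v)) x := by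
      unfold lap
      rw [Fin.sum_univ_three]
      have e0 : pd 0 (UU v) = fun y => y 0 * qU y := funext fun y => (hqU y).1
      have e1 : pd 1 (UU v) = fun y => y 1 * qU y := funext fun y => (hqU y).2.1
      rw [e0, e1, pd_mulf (sm_crd 0) sqU, pd_mulf (sm_crd 1) sqU, pd_crd, pd_crd]
      simp only [if_true]
      unfold RR
      ring
    have h7 : sg x * LL (UU v) x = sg x * pd 2 (OO v) x := by
      unfold LL
      rw [h6, h5]
      have h8 : 2 / sg x * (sg x * qU x) = 2 * qU x := by field_simp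
      rw [h8]
      linear_combination (-1) * h1 + h2 + (-1) * h4 + (-2) * h5
    exact mul_left_cancel₀ hsx h7
  · -- the gradient
    have hsg : 0 ≤ sg x := by unfold sg; positivity
    have hsgd : sg x = x 0 ^ 2 + x 1 ^ 2 := rfl
    have e0 : (fun y => v y 0) = fun y => y 0 * UU v y - y 1 * WW v y := funext fun y => (hid y).1
    have e1 : (fun y => v y 1) = fun y => y 1 * UU v y + y 0 * WW v y := funext fun y => (hid y).2.1
    have hq2 : q x = pd 2 (UU v) x - OO v x := by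
      have h1 := hOO x
      rw [(hq x).2.2] at h1
      have h2 : sg x * q x = sg x * (pd 2 (UU v) x - OO v x) := by linarith
      exact mul_left_cancel₀ hsx h2
    have h2d : pd 2 (fun z => v z 2) x = -(2 * UU v x + RR (UU v) x) := by
      have h3 := hdiv x hx
      rw [hD] at h3
      linarith
    have b0 : ∀ j : Fin 3, pd j (fun y => v y 0) x ^ 2 ≤ 4 * (x 0 ^ 2 * pd j (UU v) x ^ 2 +
        (if (0 : Fin 3) = j then 1 else 0) * UU v x ^ 2 + x 1 ^ 2 * pd j (WW v) x ^ 2 +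
        (if (1 : Fin 3) = j then 1 else 0) * WW v x ^ 2) := by
      intro j
      rw [e0, pd_m sU sW]
      refine (sq4 _ _ _ _).trans (le_of_eq ?_)
      split_ifs <;> ring
    have b1 : ∀ j : Fin 3, pd j (fun y => v y 1) x ^ 2 ≤ 4 * (x 1 ^ 2 * pd j (UU v) x ^ 2 +
        (if (1 : Fin 3) = j then 1 else 0) * UU v x ^ 2 + x 0 ^ 2 * pd j (WW v) x ^ 2 +
        (if (0 : Fin 3) = j then 1 else 0) * WW v x ^ 2) := by
      intro j
      rw [e1, pd_p sU sW]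
      refine (sq4' _ _ _ _).trans (le_of_eq ?_)
      split_ifs <;> ring
    have c0 := b0 0
    have c1 := b0 1
    have c2 := b0 2
    have d0 := b1 0
    have d1 := b1 1
    have d2 := b1 2
    simp only [f01, f02, f10, f12, if_true, if_false, zero_mul, one_mul, add_zero] at c0 c1 c2 d0 d1 d2
    have g0 : pd 0 (fun y => v y 2) x ^ 2 + pd 1 (fun y => v y 2) x ^ 2 ≤ 2 * sg x * (pd 2 (UU v) x ^ 2 + OO v x ^ 2) := by
      rw [(hq x).1, (hq x).2.1, hq2]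
      have : (x 0 * (pd 2 (UU v) x - OO v x)) ^ 2 + (x 1 * (pd 2 (UU v) x - OO v x)) ^ 2 =
          sg x * (pd 2 (UU v) x - OO v x) ^ 2 := by rw [hsgd]; ring
      rw [this]
      have h3 : (pd 2 (UU v) x - OO v x) ^ 2 ≤ 2 * (pd 2 (UU v) x ^ 2 + OO v x ^ 2) := by
        nlinarith [sq_nonneg (pd 2 (UU v) x + OO v x)]
      nlinarith
    have g1 : RR (UU v) x ^ 2 ≤ sg x * (pd 0 (UU v) x ^ 2 + pd 1 (UU v) x ^ 2) := by
      unfold RR
      rw [hsgd]
      nlinarith [sq_nonneg (x 0 * pd 1 (UU v) x - x 1 * pd 0 (UU v) x)]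
    have g2 : pd 2 (fun y => v y 2) x ^ 2 ≤ 8 * UU v x ^ 2 + 2 * RR (UU v) x ^ 2 := by
      rw [h2d]
      nlinarith [sq_nonneg (2 * UU v x - RR (UU v) x)]
    have k1 : 0 ≤ sg x * pd 2 (UU v) x ^ 2 := by positivity
    have k2 : 0 ≤ sg x * OO v x ^ 2 := by positivity
    have k3 : 0 ≤ sg x * (pd 0 (UU v) x ^ 2 + pd 1 (UU v) x ^ 2) := by positivity
    have k4 : 0 ≤ sg x * (pd 0 (WW v) x ^ 2 + pd 1 (WW v) x ^ 2 + pd 2 (WW v) x ^ 2) := by positivity
    have k5 : 0 ≤ UU v x ^ 2 := sq_nonneg _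
    have k6 : 0 ≤ WW v x ^ 2 := sq_nonneg _
    unfold W221.NS.gsq gr2
    simp only [Fin.sum_univ_three]
    have m1 : x 0 ^ 2 * pd 0 (UU v) x ^ 2 + x 1 ^ 2 * pd 0 (UU v) x ^ 2 = sg x * pd 0 (UU v) x ^ 2 := by rw [hsgd]; ring
    have m2 : x 0 ^ 2 * pd 1 (UU v) x ^ 2 + x 1 ^ 2 * pd 1 (UU v) x ^ 2 = sg x * pd 1 (UU v) x ^ 2 := by rw [hsgd]; ring
    have m3 : x 0 ^ 2 * pd 2 (UU v) x ^ 2 + x 1 ^ 2 * pd 2 (UU v) x ^ 2 = sg x * pd 2 (UU v) x ^ 2 := by rw [hsgd]; ring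
    have m4 : x 1 ^ 2 * pd 0 (WW v) x ^ 2 + x 0 ^ 2 * pd 0 (WW v) x ^ 2 = sg x * pd 0 (WW v) x ^ 2 := by rw [hsgd]; ring
    have m5 : x 1 ^ 2 * pd 1 (WW v) x ^ 2 + x 0 ^ 2 * pd 1 (WW v) x ^ 2 = sg x * pd 1 (WW v) x ^ 2 := by rw [hsgd]; ring
    have m6 : x 1 ^ 2 * pd 2 (WW v) x ^ 2 + x 0 ^ 2 * pd 2 (WW v) x ^ 2 = sg x * pd 2 (WW v) x ^ 2 := by rw [hsgd]; ring
    linarith

end Pool.Agent.Q257.AXI
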