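import Pool.Agent.Q257.AXI.AxF

set_option autoImplicit false

/-! Project AXI (helper67), job AXI-5 (helper257). -/

open MeasureTheory Set Metric Filter Topology
open scoped ContDiff
open H459R3.NS Pool.Agent.W268.NS

namespace Pool.Agent.Q257.AXI

open Pool.Agent.Q67.AXI Pool.Agent.TH305.AX Pool.Agent.TH305.DR
open Pool.Agent.W583.MD (sm_pd)

/-- the integral of a derivative, for functions of class `C¹` -/
lemma int_pd1 {f : V → ℝ} (hf : ContDiff ℝ 1 f) (hs : HasCompactSupport f) (j : Fin 3) :
    Integrable (pd j f) ∧ ∫ x, pd j f x = 0 := by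
  have hc : Continuous (pd j f) := (hf.continuous_fderiv (by norm_num)).clm_apply continuous_const
  have hcs : HasCompactSupport (pd j f) := hs.fderiv_apply (𝕜 := ℝ) (Pi.single j 1)
  have hi : Integrable (pd j f) := hc.integrable_of_hasCompactSupport hcs
  refine ⟨hi, ?_⟩
  have h := integral_mul_fderiv_eq_neg_fderiv_mul_of_integrable (μ := (volume : Measure V))
    (f := fun _ : V => (1 : ℝ)) (g := f) (v := (Pi.single j 1 : V)) ?_ ?_ ?_ ?_ ?_
  · simp only [one_mul, fderiv_fun_const, Pi.zero_apply, zero_apply,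
      zero_mul, integral_zero, neg_zero] at h
    exact h
  · simp only [fderiv_fun_const, Pi.zero_apply, zero_apply, zero_mul]
    exact integrable_zero _ _ _
  · simp only [one_mul]
    exact hi
  · simp only [one_mul]
    exact hf.continuous.integrable_of_hasCompactSupport hs
  · exact fun x _ => differentiableAt_const 1
  · exact fun x _ => (hf.differentiable one_ne_zero) x

lemma pd_mul1 {f g : V → ℝ} (hf : Differentiable ℝ f) (hg : Differentiable ℝ g) (j : Fin 3) (x : V) :
    pd j (fun y => f y * g y) x = f x * pd j g x + pd j f x * g x := by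
  unfold pd
  have h : HasFDerivAt (fun y => f y * g y) _ x := (hf x).hasFDerivAt.mul (hg x).hasFDerivAt
  rw [h.fderiv]
  simp only [add_apply, smul_apply, smul_eq_mul]
  ring

lemma sg_nonneg (x : V) : 0 ≤ sg x := by unfold sg; positivity

lemma sm_sg : ContDiff ℝ ∞ sg := ((sm_crd 0).pow 2).add ((sm_crd 1).pow 2)

lemma pd_sg (j : Fin 3) (x : V) : pd j sg x = (if (0 : Fin 3) = j then 2 * x 0 else 0) + (if (1 : Fin 3) = j then 2 * x 1 else 0) := by
  have e : sg = fun y : V => y 0 * y 0 + y 1 * y 1 := by funext y; unfold sg; ring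
  rw [e, pd_add' ((sm_crd 0).mul (sm_crd 0)) ((sm_crd 1).mul (sm_crd 1)), pd_mulf (sm_crd 0) (sm_crd 0),
    pd_mulf (sm_crd 1) (sm_crd 1), pd_crd, pd_crd]
  simp only
  split_ifs <;> ring

/-- the weight -/
noncomputable def gw (ε : ℝ) (i : Fin 3) (x : V) : ℝ := x i / (sg x + ε)

lemma sm_gw {ε : ℝ} (hε : 0 < ε) (i : Fin 3) : ContDiff ℝ ∞ (gw ε i) :=
  (sm_crd i).div (sm_sg.add contDiff_const) fun x => by have := sg_nonneg x; positivity

lemma pd_sge (ε : ℝ) (j : Fin 3) (x : V) : pd j (fun y => sg y + ε) x = pd j sg x := by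
  rw [pd_add' sm_sg contDiff_const, pd_const']
  simp

lemma gw_div {ε : ℝ} (hε : 0 < ε) (x : V) : pd 0 (gw ε 0) x + pd 1 (gw ε 1) x = 2 * ε / (sg x + ε) ^ 2 := by
  have hs := sg_nonneg x
  have hne : sg x + ε ≠ 0 := by positivity
  have h : ∀ i : Fin 3, 1 = gw ε i x * pd i sg x + pd i (gw ε i) x * (sg x + ε) := by
    intro i
    have e : (fun y : V => gw ε i y * (sg y + ε)) = fun y => y i := by
      funext y
      have := sg_nonneg y
      unfold gw
      field_simp
    have h1 := pd_mulf (sm_gw hε i) (sm_sg.add contDiff_const) (g := fun y => sg y + ε) i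
    rw [e, pd_crd] at h1
    have h2 := congrFun h1 x
    simp only [if_true] at h2
    rw [pd_sge] at h2
    exact h2
  have h0 := h 0
  have h1 := h 1
  rw [pd_sg] at h0 h1
  have e1 : ((0 : Fin 3) = 1) = False := by simp
  have e2 : ((1 : Fin 3) = 0) = False := by simp
  simp only [e1, e2, if_true, if_false, add_zero, zero_add] at h0 h1
  rw [eq_div_iff (by positivity)]
  have g0 : gw ε 0 x * (sg x + ε) = x 0 := by unfold gw; field_simp
  have g1 : gw ε 1 x * (sg x + ε) = x 1 := by unfold gw; field_simp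
  have hsg : sg x = x 0 ^ 2 + x 1 ^ 2 := rfl
  linear_combination (-(sg x + ε)) * h0 + (-(sg x + ε)) * h1 + (-2 * x 0) * g0 + (-2 * x 1) * g1 + 2 * hsg

/-- one dimensional weights -/
lemma abs_int (R : ℝ) (hR : 0 ≤ R) : Integrable (Set.indicator (Icc (-R) R) fun t : ℝ => |t| ^ (-(1 / 2) : ℝ)) := by
  rw [integrable_indicator_iff measurableSet_Icc]
  have h1 : IntervalIntegrable (fun t : ℝ => |t| ^ (-(1 / 2) : ℝ)) volume 0 R := by
    have h2 : IntervalIntegrable (fun t : ℝ => t ^ (-(1 / 2) : ℝ)) volume 0 R :=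
      intervalIntegral.intervalIntegrable_rpow' (by norm_num)
    refine h2.congr fun t ht => ?_
    rw [uIoc_of_le hR] at ht
    rw [abs_of_pos ht.1]
  have h2 := h1.comp_sub_left 0
  simp only [zero_sub, abs_neg, neg_zero] at h2
  have h3 := h2.symm.trans h1
  rw [intervalIntegrable_iff_integrableOn_Icc_of_le (by linarith)] at h3
  exact h3

/-- the product weight -/
noncomputable def Pw (R : ℝ) (x : V) : ℝ := ∏ i, (fun (i : Fin 3) (t : ℝ) =>
  if i = 2 then Set.indicator (Icc (-R) R) (fun _ => (1 : ℝ)) t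
  else Set.indicator (Icc (-R) R) (fun t : ℝ => |t| ^ (-(1 / 2) : ℝ)) t) i (x i)

lemma Pw_int (R : ℝ) (hR : 0 ≤ R) : Integrable (Pw R) := by
  unfold Pw
  rw [volume_pi]
  refine Integrable.fintype_prod (f := fun (i : Fin 3) (t : ℝ) =>
    if i = 2 then Set.indicator (Icc (-R) R) (fun _ => (1 : ℝ)) t
    else Set.indicator (Icc (-R) R) (fun t : ℝ => |t| ^ (-(1 / 2) : ℝ)) t) fun i => ?_
  by_cases hi : i = 2
  · simp only [hi, if_true]
    rw [integrable_indicator_iff measurableSet_Icc]
    exact integrableOn_const (by simp)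
  · simp only [hi, if_false]
    exact abs_int R hR

lemma Pw_eq {R : ℝ} {x : V} (hx : ∀ i, |x i| ≤ R) : Pw R x = |x 0| ^ (-(1 / 2) : ℝ) * |x 1| ^ (-(1 / 2) : ℝ) := by
  have hm : ∀ i, x i ∈ Icc (-R) R := fun i => abs_le.1 (hx i)
  unfold Pw
  rw [Fin.prod_univ_three]
  have e0 : ((0 : Fin 3) = 2) = False := by simp
  have e1 : ((1 : Fin 3) = 2) = False := by simp
  simp only [e0, e1, if_false, if_true, indicator_of_mem (hm _), mul_one]

lemma Pw_nonneg (R : ℝ) (x : V) : 0 ≤ Pw R x := by
  unfold Pw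
  refine Finset.prod_nonneg fun i _ => ?_
  simp only
  split_ifs
  · exact indicator_nonneg (fun _ _ => zero_le_one) _
  · exact indicator_nonneg (fun _ _ => by positivity) _

lemma ae_ne : ∀ᵐ x : V, x 0 ≠ 0 ∧ x 1 ≠ 0 := by
  have h : ∀ i : Fin 3, ∀ᵐ x : V, x i ≠ 0 := by
    intro i
    rw [ae_iff, volume_pi]
    simp only [ne_eq, not_not]
    exact Measure.pi_hyperplane (fun _ : Fin 3 => (volume : Measure ℝ)) i 0
  exact (h 0).and (h 1)

/-- the elementary inequality -/
lemma el {a b : ℝ} (ha : 0 < a) (hb : 0 < b) : (a + b) / (a ^ 2 + b ^ 2) ≤ a ^ (-(1 / 2) : ℝ) * b ^ (-(1 / 2) : ℝ) := by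
  rw [Real.rpow_neg ha.le, Real.rpow_neg hb.le, ← Real.sqrt_eq_rpow, ← Real.sqrt_eq_rpow, ← mul_inv, ← one_div,
    div_le_div_iff₀ (by positivity) (by positivity), one_mul]
  have h1 := Real.sq_sqrt ha.le
  have h2 := Real.sq_sqrt hb.le
  have h3 : √a * √b ≤ (a + b) / 2 := by nlinarith [sq_nonneg (√a - √b)]
  nlinarith [sq_nonneg (a - b)]

/-- integrability of the singular weights -/
lemma sing_int {G : V → ℝ} (hG : Continuous G) {R M : ℝ} (hR : 0 ≤ R) (hM : 0 ≤ M) (hb : ∀ x, |G x| ≤ M * (|x 0| + |x 1|))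
    (hs : ∀ x, G x ≠ 0 → ∀ i, |x i| ≤ R) : Integrable fun x => G x / sg x := by
  refine ((Pw_int R hR).const_mul M).mono' ?_ ?_
  · exact (hG.measurable.div sm_sg.continuous.measurable).aestronglyMeasurable
  · filter_upwards [ae_ne] with x hx
    have hsg := sg_nonneg x
    by_cases h0 : G x = 0
    · rw [h0, zero_div, norm_zero]
      exact mul_nonneg hM (Pw_nonneg R x)
    · rw [Pw_eq (hs x h0), Real.norm_eq_abs, abs_div, abs_of_nonneg hsg]
      have h1 : 0 < |x 0| := abs_pos.2 hx.1
      have h2 : 0 < |x 1| := abs_pos.2 hx.2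
      have h3 : sg x = |x 0| ^ 2 + |x 1| ^ 2 := by rw [sq_abs, sq_abs]; rfl
      have h4 := el h1 h2
      rw [h3]
      calc |G x| / (|x 0| ^ 2 + |x 1| ^ 2) ≤ M * (|x 0| + |x 1|) / (|x 0| ^ 2 + |x 1| ^ 2) := by
            gcongr
            exact hb x
        _ = M * ((|x 0| + |x 1|) / (|x 0| ^ 2 + |x 1| ^ 2)) := by ring
        _ ≤ _ := mul_le_mul_of_nonneg_left h4 hM

theorem t_H0 : StmH0 := by
  intro F hF hs h0
  have hd : Differentiable ℝ F := hF.differentiable one_ne_zero
  have hpc : ∀ j : Fin 3, Continuous (pd j F) := fun j => (hF.continuous_fderiv (by norm_num)).clm_apply continuous_const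
  have hps : ∀ j : Fin 3, HasCompactSupport (pd j F) := fun j => hs.fderiv_apply (𝕜 := ℝ) (Pi.single j 1)
  have hB : ∀ j : Fin 3, ∃ M : ℝ, ∀ x, ‖pd j F x‖ ≤ M := fun j => (hpc j).bounded_above_of_compact_support (hps j)
  choose Mj hMj using hB
  have hRc : Continuous (RR F) := by
    unfold RR
    exact ((continuous_apply 0).mul (hpc 0)).add ((continuous_apply 1).mul (hpc 1))
  obtain ⟨R, hR⟩ := hs.isCompact.isBounded.subset_closedBall (0 : V)
  have hint : Integrable fun x => RR F x / sg x := by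
    refine sing_int hRc (R := |R|) (M := |Mj 0| + |Mj 1|) (abs_nonneg R) (by positivity) (fun x => ?_) (fun x hx i => ?_)
    · unfold RR
      have h1 : |pd 0 F x| ≤ |Mj 0| + |Mj 1| := (hMj 0 x).trans ((le_abs_self _).trans (by linarith [abs_nonneg (Mj 1)]))
      have h2 : |pd 1 F x| ≤ |Mj 0| + |Mj 1| := (hMj 1 x).trans ((le_abs_self _).trans (by linarith [abs_nonneg (Mj 0)]))
      refine (abs_add_le _ _).trans ?_
      rw [abs_mul, abs_mul]
      have h3 := mul_le_mul_of_nonneg_left h1 (abs_nonneg (x 0))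
      have h4 := mul_le_mul_of_nonneg_left h2 (abs_nonneg (x 1))
      linarith
    · have h1 : x ∈ tsupport F := by
        by_contra hcon
        apply hx
        have h2 : ∀ j : Fin 3, pd j F x = 0 := fun j => by
          by_contra h3
          exact hcon (by
            have h4 : x ∈ tsupport (fun y => fderiv ℝ F y (Pi.single j 1)) := subset_tsupport _ h3
            exact (tsupport_fderiv_apply_subset ℝ (Pi.single j 1)) h4)
        unfold RR
        rw [h2, h2]
        ring
      have h2 := hR h1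
      rw [mem_closedBall, dist_zero_right] at h2
      have h3 := norm_le_pi_norm x i
      rw [Real.norm_eq_abs] at h3
      exact h3.trans (h2.trans (le_abs_self R))
  refine ⟨hint, ?_⟩
  -- regularisation
  have hreg : ∀ ε : ℝ, 0 < ε → ∫ x, RR F x / (sg x + ε) ≤ 0 := by
    intro ε hε
    have hg : ∀ i, ContDiff ℝ ∞ (gw ε i) := fun i => sm_gw hε i
    have hgd : ∀ i, Differentiable ℝ (gw ε i) := fun i => (hg i).differentiable (by norm_cast)
    have hZ : ∀ i : Fin 3, Integrable (pd i fun y => gw ε i y * F y) ∧ ∫ x, pd i (fun y => gw ε i y * F y) x = 0 := fun i =>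
      int_pd1 (((hg i).of_le (by norm_cast)).mul hF) hs.mul_left i
    have e1 : ∀ x, RR F x / (sg x + ε) = (pd 0 (fun y => gw ε 0 y * F y) x + pd 1 (fun y => gw ε 1 y * F y) x) -
        2 * ε / (sg x + ε) ^ 2 * F x := by
      intro x
      have hsg := sg_nonneg x
      rw [pd_mul1 (hgd 0) hd, pd_mul1 (hgd 1) hd, ← gw_div hε x]
      unfold RR gw
      field_simp
      ring
    have hI : Integrable fun x => 2 * ε / (sg x + ε) ^ 2 * F x := by
      refine Continuous.integrable_of_hasCompactSupport ?_ hs.mul_left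
      refine Continuous.mul (continuous_const.div ((sm_sg.continuous.add continuous_const).pow 2) fun x => ?_) hF.continuous
      have := sg_nonneg x
      positivity
    simp_rw [e1]
    have i01 : Integrable fun x => pd 0 (fun y => gw ε 0 y * F y) x + pd 1 (fun y => gw ε 1 y * F y) x := (hZ 0).1.add (hZ 1).1
    rw [integral_sub i01 hI, integral_add (hZ 0).1 (hZ 1).1, (hZ 0).2, (hZ 1).2]
    have : 0 ≤ ∫ x, 2 * ε / (sg x + ε) ^ 2 * F x := integral_nonneg fun x => by
      have h1 := sg_nonneg x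
      have h2 := h0 x
      simp only [Pi.zero_apply]
      positivity
    linarith
  have hlim : Tendsto (fun n : ℕ => ∫ x, RR F x / (sg x + 1 / ((n : ℝ) + 1))) atTop (𝓝 (∫ x, RR F x / sg x)) := by
    refine tendsto_integral_of_dominated_convergence (fun x => ‖RR F x / sg x‖) (fun n => ?_) hint.norm (fun n => ?_) ?_
    · exact (hRc.measurable.div (sm_sg.continuous.measurable.add_const _)).aestronglyMeasurable
    · refine Eventually.of_forall fun x => ?_
      have h1 := sg_nonneg x
      have h2 : (0 : ℝ) < 1 / ((n : ℝ) + 1) := Nat.one_div_pos_of_nat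
      rw [norm_div, norm_div, Real.norm_of_nonneg h1, Real.norm_of_nonneg (by positivity : 0 ≤ sg x + 1 / ((n : ℝ) + 1))]
      rcases h1.eq_or_lt with h3 | h3
      · have e : RR F x = 0 := by
          have a0 : x 0 = 0 := by unfold sg at h3; nlinarith [sq_nonneg (x 0), sq_nonneg (x 1)]
          have a1 : x 1 = 0 := by unfold sg at h3; nlinarith [sq_nonneg (x 0), sq_nonneg (x 1)]
          unfold RR
          rw [a0, a1]
          ring
        rw [e, norm_zero, zero_div, zero_div]
      · gcongr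
        linarith
    · refine Eventually.of_forall fun x => ?_
      have h1 := sg_nonneg x
      rcases h1.eq_or_lt with h3 | h3
      · have e : RR F x = 0 := by
          have a0 : x 0 = 0 := by unfold sg at h3; nlinarith [sq_nonneg (x 0), sq_nonneg (x 1)]
          have a1 : x 1 = 0 := by unfold sg at h3; nlinarith [sq_nonneg (x 0), sq_nonneg (x 1)]
          unfold RR
          rw [a0, a1]
          ring
        simp only [e, zero_div]
        exact tendsto_const_nhds
      · have h4 : Tendsto (fun n : ℕ => sg x + 1 / ((n : ℝ) + 1)) atTop (𝓝 (sg x + 0)) :=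
          tendsto_const_nhds.add tendsto_one_div_add_atTop_nhds_zero_nat
        rw [add_zero] at h4
        exact tendsto_const_nhds.div h4 h3.ne'
  exact le_of_tendsto' hlim fun n => hreg _ Nat.one_div_pos_of_nat

end Pool.Agent.Q257.AXI
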