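import Pool.Agent.Q257.AXI.Div

set_option autoImplicit false

/-! Project AXI (helper67), job AXI-13 (helper257): bounds in the outer region. -/

open MeasureTheory Set Metric Filter Topology
open scoped ContDiff
open H459R3.NS Pool.Agent.W268.NS

namespace Pool.Agent.Q257.AXI

open Pool.Agent.Q67.AXI Pool.Agent.TH305.AX Pool.Agent.TH305.DR
open Pool.Agent.W583.MD (sm_pd)
open Pool.Agent.W22.ME.TD (pd_comm)

/-- the factor of the chain rule -/
noncomputable def cj (j : Fin 3) (l : ℝ) : ℝ := if j = 2 then 1 else l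

lemma cj_cont (j : Fin 3) : Continuous (cj j) := by
  unfold cj
  split_ifs
  · exact continuous_const
  · exact continuous_id

lemma pl_line (l : ℝ) (x : V) (j : Fin 3) (s : ℝ) :
    pl l (x + s • (Pi.single j (1 : ℝ) : V)) = pl l x + s • (cj j l • (Pi.single j (1 : ℝ) : V)) := by
  funext i
  fin_cases j <;> fin_cases i <;> simp [pl, cj]
  all_goals ring

lemma F_hd {g : V → ℝ} (hg : ContDiff ℝ ∞ g) (x : V) (j : Fin 3) (l s : ℝ) :
    HasDerivAt (fun s : ℝ => l * g (pl l (x + s • (Pi.single j (1 : ℝ) : V))))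
      (l * (cj j l * pd j g (pl l (x + s • (Pi.single j (1 : ℝ) : V))))) s := by
  have h1 : DifferentiableAt ℝ g (pl l x + s • (cj j l • (Pi.single j (1 : ℝ) : V))) := (hg.differentiable (by norm_cast)) _
  have h2 := (h1.hasFDerivAt.comp_hasDerivAt s (line_hd (pl l x) (cj j l • (Pi.single j (1 : ℝ) : V)) s)).const_mul l
  have e : (fun s : ℝ => l * g (pl l (x + s • (Pi.single j (1 : ℝ) : V)))) =
      fun s : ℝ => l * (g ∘ fun s : ℝ => pl l x + s • (cj j l • (Pi.single j (1 : ℝ) : V))) s := by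
    funext s
    rw [Function.comp_apply, pl_line]
  rw [e]
  refine h2.congr_deriv ?_
  rw [pl_line, map_smul]
  rfl

lemma pd_AA {g : V → ℝ} (hg : ContDiff ℝ ∞ g) (hA : ContDiff ℝ ∞ (AA g)) (j : Fin 3) (x : V) :
    pd j (AA g) x = ∫ l in (0 : ℝ)..1, l * (cj j l * pd j g (pl l x)) := by
  obtain ⟨e, he⟩ : ∃ e : V, e = Pi.single j 1 := ⟨_, rfl⟩
  have hplc : Continuous fun p : ℝ × ℝ => pl p.2 (x + p.1 • e) := by
    refine continuous_pi fun i => ?_
    fin_cases i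
    · show Continuous fun p : ℝ × ℝ => p.2 * (x 0 + p.1 * e 0)
      fun_prop
    · show Continuous fun p : ℝ × ℝ => p.2 * (x 1 + p.1 * e 1)
      fun_prop
    · show Continuous fun p : ℝ × ℝ => x 2 + p.1 * e 2
      fun_prop
  have hFc : Continuous fun p : ℝ × ℝ => p.2 * (cj j p.2 * pd j g (pl p.2 (x + p.1 • e))) :=
    continuous_snd.mul (((cj_cont j).comp continuous_snd).mul ((sm_pd hg j).continuous.comp hplc))
  have hF0 : Continuous fun p : ℝ × ℝ => p.2 * g (pl p.2 (x + p.1 • e)) :=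
    continuous_snd.mul (hg.continuous.comp hplc)
  obtain ⟨B, hB⟩ := (isCompact_Icc.prod isCompact_Icc : IsCompact (Icc (-1 : ℝ) 1 ×ˢ Icc (0 : ℝ) 1)).exists_bound_of_continuousOn
    hFc.continuousOn
  have h1 := intervalIntegral.hasDerivAt_integral_of_dominated_loc_of_deriv_le (μ := volume) (a := 0) (b := 1)
    (F := fun s l : ℝ => l * g (pl l (x + s • e))) (F' := fun s l : ℝ => l * (cj j l * pd j g (pl l (x + s • e))))
    (x₀ := 0) (s := ball 0 1) (bound := fun _ => B) (ball_mem_nhds _ one_pos)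
    (Eventually.of_forall fun s => ((hF0.comp (Continuous.prodMk continuous_const continuous_id)).aestronglyMeasurable))
    ((hF0.comp (Continuous.prodMk continuous_const continuous_id)).intervalIntegrable _ _)
    ((hFc.comp (Continuous.prodMk continuous_const continuous_id)).aestronglyMeasurable)
    (Eventually.of_forall fun l hl s hs => by
      rw [uIoc_of_le zero_le_one] at hl
      rw [mem_ball_zero_iff, Real.norm_eq_abs, abs_lt] at hs
      exact hB (s, l) ⟨⟨hs.1.le, hs.2.le⟩, ⟨hl.1.le, hl.2⟩⟩)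
    intervalIntegrable_const
    (Eventually.of_forall fun l _ s _ => by
      have := F_hd hg x j l s
      rw [← he] at this
      exact this)
  have h2 := h1.2
  have h3 : DifferentiableAt ℝ (AA g) (x + (0 : ℝ) • e) := (hA.differentiable (by norm_cast)) _
  have h4 := h3.hasFDerivAt.comp_hasDerivAt (0 : ℝ) (line_hd x e 0)
  have e1 : (AA g ∘ fun s : ℝ => x + s • e) = fun s : ℝ => ∫ l in (0 : ℝ)..1, l * g (pl l (x + s • e)) := rfl
  rw [e1] at h4
  have h5 := h4.unique h2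
  rw [zero_smul, add_zero] at h5
  have e2 : pd j (AA g) x = fderiv ℝ (AA g) x e := by rw [he]; rfl
  rw [e2, h5]

lemma AA_bd {g : V → ℝ} {M : ℝ} (x : V) (h : ∀ l ∈ Icc (0 : ℝ) 1, |g (pl l x)| ≤ M) : |AA g x| ≤ M := by
  have hM : 0 ≤ M := (abs_nonneg _).trans (h 0 ⟨le_rfl, zero_le_one⟩)
  have h1 := intervalIntegral.norm_integral_le_of_norm_le_const (a := 0) (b := 1) (f := fun l : ℝ => l * g (pl l x))
    (C := M) (fun l hl => by
      rw [uIoc_of_le zero_le_one] at hl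
      rw [norm_mul, Real.norm_eq_abs, Real.norm_eq_abs, abs_of_pos hl.1]
      have := h l ⟨hl.1.le, hl.2⟩
      calc l * |g (pl l x)| ≤ 1 * M := mul_le_mul hl.2 this (abs_nonneg _) zero_le_one
        _ = M := one_mul M)
  rw [sub_zero, abs_one, mul_one, Real.norm_eq_abs] at h1
  exact h1

lemma pdAA_bd {g : V → ℝ} (hg : ContDiff ℝ ∞ g) (hA : ContDiff ℝ ∞ (AA g)) {M : ℝ} (j : Fin 3) (x : V)
    (h : ∀ l ∈ Icc (0 : ℝ) 1, |pd j g (pl l x)| ≤ M) : |pd j (AA g) x| ≤ M := by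
  rw [pd_AA hg hA]
  have hM : 0 ≤ M := (abs_nonneg _).trans (h 0 ⟨le_rfl, zero_le_one⟩)
  have h1 := intervalIntegral.norm_integral_le_of_norm_le_const (a := 0) (b := 1)
    (f := fun l : ℝ => l * (cj j l * pd j g (pl l x))) (C := M) (fun l hl => by
      rw [uIoc_of_le zero_le_one] at hl
      have hc : |cj j l| ≤ 1 := by
        unfold cj
        split_ifs
        · simp
        · rw [abs_of_pos hl.1]; exact hl.2
      rw [norm_mul, norm_mul, Real.norm_eq_abs, Real.norm_eq_abs, Real.norm_eq_abs, abs_of_pos hl.1]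
      have := h l ⟨hl.1.le, hl.2⟩
      have h2 : |cj j l| * |pd j g (pl l x)| ≤ 1 * M := mul_le_mul hc this (abs_nonneg _) zero_le_one
      calc l * (|cj j l| * |pd j g (pl l x)|) ≤ 1 * (1 * M) :=
            mul_le_mul hl.2 h2 (mul_nonneg (abs_nonneg _) (abs_nonneg _)) zero_le_one
        _ = M := by ring)
  rw [sub_zero, abs_one, mul_one, Real.norm_eq_abs] at h1
  exact h1

lemma abs_add4 (a b c d : ℝ) {M : ℝ} (ha : |a| ≤ M) (hb : |b| ≤ M) (hc : |c| ≤ M) (hd : |d| ≤ M) :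
    |(a - b) + (c - d)| ≤ 4 * M := by
  rw [abs_le] at *
  constructor <;> linarith [ha.1, ha.2, hb.1, hb.2, hc.1, hc.2, hd.1, hd.2]

lemma abs_sub4 (a b c d : ℝ) {M : ℝ} (ha : |a| ≤ M) (hb : |b| ≤ M) (hc : |c| ≤ M) (hd : |d| ≤ M) :
    |(a - b) - (c - d)| ≤ 4 * M := by
  rw [abs_le] at *
  constructor <;> linarith [ha.1, ha.2, hb.1, hb.2, hc.1, hc.2, hd.1, hd.2]

/-- bounds away from the axis -/
lemma away {U W w0 w1 : V → ℝ} (sU : ContDiff ℝ ∞ U) (sW : ContDiff ℝ ∞ W)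
    (e0 : w0 = fun y => y 0 * U y - y 1 * W y) (e1 : w1 = fun y => y 1 * U y + y 0 * W y) {r r1 M : ℝ} (hr1 : 0 < r1)
    (hr : 0 < r) (hM : 0 ≤ M) {x : V} (hx1 : r1 ^ 2 ≤ sg x) (hx2 : sg x ≤ r ^ 2) (b0 : |w0 x| ≤ M) (b1 : |w1 x| ≤ M)
    (d0 : ∀ j, |pd j w0 x| ≤ M) (d1 : ∀ j, |pd j w1 x| ≤ M) :
    |U x| ≤ 2 * r * M / r1 ^ 2 ∧ |W x| ≤ 2 * r * M / r1 ^ 2 ∧
    ∀ j, |pd j U x| ≤ (2 * M + 2 * r * M + 2 * r * (2 * r * M / r1 ^ 2) * 2) / r1 ^ 2 ∧
      |pd j W x| ≤ (2 * M + 2 * r * M + 2 * r * (2 * r * M / r1 ^ 2) * 2) / r1 ^ 2 := by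
  have hs1 : ContDiff ℝ ∞ w0 := by rw [e0]; exact ((sm_crd 0).mul sU).sub ((sm_crd 1).mul sW)
  have hs2 : ContDiff ℝ ∞ w1 := by rw [e1]; exact ((sm_crd 1).mul sU).add ((sm_crd 0).mul sW)
  have hsg : 0 < sg x := lt_of_lt_of_le (by positivity) hx1
  have hr12 : 0 < r1 ^ 2 := by positivity
  have hx0 : |x 0| ≤ r := by
    refine abs_le_of_sq_le_sq' ?_ hr.le |> fun h => abs_le.2 h
    unfold sg at hx2
    nlinarith [sq_nonneg (x 1)]
  have hx1' : |x 1| ≤ r := by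
    refine abs_le_of_sq_le_sq' ?_ hr.le |> fun h => abs_le.2 h
    unfold sg at hx2
    nlinarith [sq_nonneg (x 0)]
  have gU : (fun y => sg y * U y) = fun y => y 0 * w0 y - y 1 * (-w1 y) := by
    funext y
    rw [e0, e1]
    unfold sg
    ring
  have gW : (fun y => sg y * W y) = fun y => y 0 * w1 y - y 1 * w0 y := by
    funext y
    rw [e0, e1]
    unfold sg
    ring
  have key : ∀ {A a b : V → ℝ}, ContDiff ℝ ∞ A → ContDiff ℝ ∞ a → ContDiff ℝ ∞ b →
      (fun y => sg y * A y) = (fun y => y 0 * a y - y 1 * b y) → |a x| ≤ M → |b x| ≤ M → (∀ j, |pd j a x| ≤ M) →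
      (∀ j, |pd j b x| ≤ M) → |A x| ≤ 2 * r * M / r1 ^ 2 ∧
        ∀ j, |pd j A x| ≤ (2 * M + 2 * r * M + 2 * r * (2 * r * M / r1 ^ 2) * 2) / r1 ^ 2 := by
    intro A a b sA sa sb hA ha hb hda hdb
    have h1 : |A x| ≤ 2 * r * M / r1 ^ 2 := by
      have h2 := congrFun hA x
      rw [le_div_iff₀ hr12]
      have h3 : |sg x * A x| ≤ 2 * r * M := by
        rw [h2]
        refine (abs_sub _ _).trans ?_
        rw [abs_mul, abs_mul]
        have h4 := mul_le_mul hx0 ha (abs_nonneg _) hr.le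
        have h5 := mul_le_mul hx1' hb (abs_nonneg _) hr.le
        linarith
      rw [abs_mul, abs_of_pos hsg] at h3
      have h6 : |A x| * r1 ^ 2 ≤ |A x| * sg x := mul_le_mul_of_nonneg_left hx1 (abs_nonneg _)
      linarith
    refine ⟨h1, fun j => ?_⟩
    have h2 : pd j (fun y => sg y * A y) x = pd j (fun y => y 0 * a y - y 1 * b y) x := by rw [hA]
    rw [pd_mulf sg_sm sA, pd_m sa sb] at h2
    rw [le_div_iff₀ hr12]
    have hpsg : |pd j sg x| ≤ 2 * r * 2 := by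
      rw [sg_pd]
      refine (abs_add_le _ _).trans ?_
      have a1 : |if (0 : Fin 3) = j then 2 * x 0 else 0| ≤ 2 * r := by
        split_ifs
        · rw [abs_mul, abs_two]; linarith
        · rw [abs_zero]; linarith
      have a2 : |if (1 : Fin 3) = j then 2 * x 1 else 0| ≤ 2 * r := by
        split_ifs
        · rw [abs_mul, abs_two]; linarith
        · rw [abs_zero]; linarith
      linarith
    have h3 : sg x * pd j A x = ((x 0 * pd j a x + (if (0 : Fin 3) = j then 1 else 0) * a x) -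
      (x 1 * pd j b x + (if (1 : Fin 3) = j then 1 else 0) * b x)) - pd j sg x * A x := by
      simp only at h2
      linarith
    have h4 : |sg x * pd j A x| ≤ 2 * M + 2 * r * M + 2 * r * (2 * r * M / r1 ^ 2) * 2 := by
      rw [h3]
      refine (abs_sub _ _).trans ?_
      have i0 : |(if (0 : Fin 3) = j then (1 : ℝ) else 0) * a x| ≤ M := by
        split_ifs
        · rw [one_mul]; exact ha
        · rw [zero_mul, abs_zero]; exact hM
      have i1 : |(if (1 : Fin 3) = j then (1 : ℝ) else 0) * b x| ≤ M := by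
        split_ifs
        · rw [one_mul]; exact hb
        · rw [zero_mul, abs_zero]; exact hM
      have i2 : |x 0 * pd j a x| ≤ r * M := by
        rw [abs_mul]; exact mul_le_mul hx0 (hda j) (abs_nonneg _) hr.le
      have i3 : |x 1 * pd j b x| ≤ r * M := by
        rw [abs_mul]; exact mul_le_mul hx1' (hdb j) (abs_nonneg _) hr.le
      have i4 : |pd j sg x * A x| ≤ 2 * r * 2 * (2 * r * M / r1 ^ 2) := by
        rw [abs_mul]; exact mul_le_mul hpsg h1 (abs_nonneg _) (by positivity)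
      have i5 : |(x 0 * pd j a x + (if (0 : Fin 3) = j then 1 else 0) * a x) -
          (x 1 * pd j b x + (if (1 : Fin 3) = j then 1 else 0) * b x)| ≤ (r * M + M) + (r * M + M) :=
        (abs_sub _ _).trans (add_le_add ((abs_add_le _ _).trans (add_le_add i2 i0)) ((abs_add_le _ _).trans (add_le_add i3 i1)))
      linarith
    rw [abs_mul, abs_of_pos hsg] at h4
    have h6 : |pd j A x| * r1 ^ 2 ≤ |pd j A x| * sg x := mul_le_mul_of_nonneg_left hx1 (abs_nonneg _)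
    linarith
  have n1 : ∀ j, |pd j (fun y => -w1 y) x| ≤ M := fun j => by
    rw [pd_neg']
    simp only
    rw [abs_neg]
    exact d1 j
  obtain ⟨k1, k2⟩ := key sU hs1 hs2.neg gU b0 (by rw [abs_neg]; exact b1) d0 n1
  obtain ⟨k3, k4⟩ := key sW hs2 hs1 gW b1 b0 d1 d0
  exact ⟨k1, k3, fun j => ⟨k2 j, k4 j⟩⟩

theorem t_Kap : StmAAs → StmAxF → StmAlg → StmKap := by
  intro hA _ hAlg K c r h r1 h1 hK hr1 hr hh1 hh
  have hr0 : 0 < r := by linarith
  obtain ⟨B, hB⟩ : ∃ B : ℝ, B = 2 * r * (2 * K) / r1 ^ 2 := ⟨_, rfl⟩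
  obtain ⟨B', hB'⟩ : ∃ B' : ℝ, B' = (2 * (2 * K) + 2 * r * (2 * K) + 2 * r * (2 * r * (2 * K) / r1 ^ 2) * 2) / r1 ^ 2 := ⟨_, rfl⟩
  have hB0 : 0 ≤ B := by rw [hB]; positivity
  have hB'0 : 0 ≤ B' := by rw [hB']; positivity
  refine ⟨4 * K + B + B', by positivity, fun v hv ha hb x hx => ?_⟩
  obtain ⟨⟨sU, sW, sJ, sO⟩, -, -, hid⟩ := hAlg v hv ha
  have hvs := sm_vort hv
  obtain ⟨⟨hx1, hx2⟩, hx3⟩ := hx
  have hv3 : ∀ i, |v x i| ≤ K := fun i => (hb x ⟨⟨hx1, hx2⟩, hx3⟩ i).1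
  rcases hx3 with hx3 | hx3
  · -- away from the axis
    have hbx := hb x ⟨⟨hx1, hx2⟩, Or.inl hx3⟩
    have hK2 : K ≤ 2 * K := by linarith
    have a1 := away sU sW (funext fun y => (hid y).1) (funext fun y => (hid y).2.1) hr1 hr0 (by positivity : 0 ≤ 2 * K) hx3 hx1
      ((hbx 0).1.trans hK2) ((hbx 1).1.trans hK2) (fun j => ((hbx 0).2.1 j).trans hK2) (fun j => ((hbx 1).2.1 j).trans hK2)
    have two : ∀ a b : ℝ, |a| ≤ K → |b| ≤ K → |a - b| ≤ 2 * K := fun a b h1 h2 => (abs_sub _ _).trans (by linarith)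
    have vb0 : |vort v x 0| ≤ 2 * K := two _ _ ((hbx 2).2.1 1) ((hbx 1).2.1 2)
    have vb1 : |vort v x 1| ≤ 2 * K := two _ _ ((hbx 0).2.1 2) ((hbx 2).2.1 0)
    have vd0 : ∀ j, |pd j (fun y => vort v y 0) x| ≤ 2 * K := fun j => by
      have e : (fun y => vort v y 0) = fun y => pd 1 (fun z => v z 2) y - pd 2 (fun z => v z 1) y := rfl
      rw [e, pd_sub' (sm_pd (sm_cmp hv 2) 1) (sm_pd (sm_cmp hv 1) 2)]
      exact two _ _ ((hbx 2).2.2.1 j 1) ((hbx 1).2.2.1 j 2)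
    have vd1 : ∀ j, |pd j (fun y => vort v y 1) x| ≤ 2 * K := fun j => by
      have e : (fun y => vort v y 1) = fun y => pd 2 (fun z => v z 0) y - pd 0 (fun z => v z 2) y := rfl
      rw [e, pd_sub' (sm_pd (sm_cmp hv 0) 2) (sm_pd (sm_cmp hv 2) 0)]
      exact two _ _ ((hbx 0).2.2.1 j 2) ((hbx 2).2.2.1 j 0)
    have a2 := away sJ sO (funext fun y => (hid y).2.2.1) (funext fun y => (hid y).2.2.2.1) hr1 hr0
      (by positivity : 0 ≤ 2 * K) hx3 hx1 vb0 vb1 vd0 vd1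
    rw [← hB', ← hB] at a1 a2
    obtain ⟨u1, u2, u3⟩ := a1
    obtain ⟨u4, u5, u6⟩ := a2
    have t1 : K ≤ 4 * K + B + B' := by linarith
    have t2 : B ≤ 4 * K + B + B' := by linarith
    have t3 : B' ≤ 4 * K + B + B' := by linarith
    exact ⟨fun i => (hv3 i).trans t1, u1.trans t2, u2.trans t2, u4.trans t2, u5.trans t2, fun i =>
      ⟨(u3 i).1.trans t3, (u3 i).2.trans t3, (u6 i).1.trans t3, (u6 i).2.trans t3⟩⟩
  · -- far from the centre
    have hpl : ∀ l ∈ Icc (0 : ℝ) 1, pl l x ∈ Out c r h r1 h1 := by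
      intro l hl
      have h1 : sg (pl l x) = l ^ 2 * sg x := by
        unfold sg
        rw [pl0, pl1]
        ring
      have h2 : 0 ≤ sg x := by unfold sg; positivity
      have h3 : l ^ 2 ≤ 1 := by nlinarith [hl.1, hl.2]
      refine ⟨⟨?_, ?_⟩, Or.inr ?_⟩
      · rw [h1]; nlinarith
      · rw [pl2]; exact hx2
      · rw [pl2]; exact hx3
    have hbl := fun l hl => hb (pl l x) (hpl l hl)
    have K4 : 4 * K ≤ 4 * K + B + B' := by linarith
    have K1 : K ≤ 4 * K + B + B' := by linarith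
    have K2 : 2 * K ≤ 4 * K + B + B' := by linarith
    have two : ∀ a b : ℝ, |a| ≤ K → |b| ≤ K → |a - b| ≤ 2 * K := fun a b h1 h2 => (abs_sub _ _).trans (by linarith)
    have two' : ∀ a b : ℝ, |a| ≤ K → |b| ≤ K → |a + b| ≤ 2 * K := fun a b h1 h2 => (abs_add_le _ _).trans (by linarith)
    -- the vorticity
    have dv : dh (vort v) = fun y => (pd 0 (pd 1 fun z => v z 2) y - pd 0 (pd 2 fun z => v z 1) y) +
        (pd 1 (pd 2 fun z => v z 0) y - pd 1 (pd 0 fun z => v z 2) y) := by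
      funext y
      unfold dh
      have e0 : (fun y => vort v y 0) = fun y => pd 1 (fun z => v z 2) y - pd 2 (fun z => v z 1) y := rfl
      have e1 : (fun y => vort v y 1) = fun y => pd 2 (fun z => v z 0) y - pd 0 (fun z => v z 2) y := rfl
      rw [e0, e1, pd_sub' (sm_pd (sm_cmp hv 2) 1) (sm_pd (sm_cmp hv 1) 2), pd_sub' (sm_pd (sm_cmp hv 0) 2) (sm_pd (sm_cmp hv 2) 0)]
    have cv : ch (vort v) = fun y => (pd 0 (pd 2 fun z => v z 0) y - pd 0 (pd 0 fun z => v z 2) y) -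
        (pd 1 (pd 1 fun z => v z 2) y - pd 1 (pd 2 fun z => v z 1) y) := by
      funext y
      unfold ch
      have e0 : (fun y => vort v y 0) = fun y => pd 1 (fun z => v z 2) y - pd 2 (fun z => v z 1) y := rfl
      have e1 : (fun y => vort v y 1) = fun y => pd 2 (fun z => v z 0) y - pd 0 (fun z => v z 2) y := rfl
      rw [e0, e1, pd_sub' (sm_pd (sm_cmp hv 2) 1) (sm_pd (sm_cmp hv 1) 2), pd_sub' (sm_pd (sm_cmp hv 0) 2) (sm_pd (sm_cmp hv 2) 0)]
    have s2 : ∀ i j k : Fin 3, ContDiff ℝ ∞ (pd j (pd k fun z => v z i)) := fun i j k => sm_pd (sm_pd (sm_cmp hv i) k) j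
    refine ⟨fun i => (hv3 i).trans K1, ?_, ?_, ?_, ?_, fun j => ⟨?_, ?_, ?_, ?_⟩⟩
    · rw [UU_eq]
      exact (AA_bd x fun l hl => two' _ _ ((hbl l hl 0).2.1 0) ((hbl l hl 1).2.1 1)).trans K2
    · rw [WW_eq]
      exact (AA_bd x fun l hl => two _ _ ((hbl l hl 1).2.1 0) ((hbl l hl 0).2.1 1)).trans K2
    · have e : JJ v = AA (dh (vort v)) := rfl
      rw [e, dv]
      exact (AA_bd x fun l hl => abs_add4 _ _ _ _ ((hbl l hl 2).2.2.1 0 1) ((hbl l hl 1).2.2.1 0 2) ((hbl l hl 0).2.2.1 1 2)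
        ((hbl l hl 2).2.2.1 1 0)).trans K4
    · have e : OO v = AA (ch (vort v)) := rfl
      rw [e, cv]
      exact (AA_bd x fun l hl => abs_sub4 _ _ _ _ ((hbl l hl 0).2.2.1 0 2) ((hbl l hl 2).2.2.1 0 0) ((hbl l hl 2).2.2.1 1 1)
        ((hbl l hl 1).2.2.1 1 2)).trans K4
    · rw [UU_eq]
      refine (pdAA_bd (sm_dh hv) (hA.1 _ (sm_dh hv)) j x fun l hl => ?_).trans K2
      have e : dh v = fun y => pd 0 (fun z => v z 0) y + pd 1 (fun z => v z 1) y := rfl
      rw [e, pd_add' (sm_pd (sm_cmp hv 0) 0) (sm_pd (sm_cmp hv 1) 1)]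
      exact two' _ _ ((hbl l hl 0).2.2.1 j 0) ((hbl l hl 1).2.2.1 j 1)
    · rw [WW_eq]
      refine (pdAA_bd (sm_ch hv) (hA.1 _ (sm_ch hv)) j x fun l hl => ?_).trans K2
      have e : ch v = fun y => pd 0 (fun z => v z 1) y - pd 1 (fun z => v z 0) y := rfl
      rw [e, pd_sub' (sm_pd (sm_cmp hv 1) 0) (sm_pd (sm_cmp hv 0) 1)]
      exact two _ _ ((hbl l hl 1).2.2.1 j 0) ((hbl l hl 0).2.2.1 j 1)
    · have e : JJ v = AA (dh (vort v)) := rfl
      rw [e]
      refine (pdAA_bd (sm_dh hvs) (hA.1 _ (sm_dh hvs)) j x fun l hl => ?_).trans K4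
      rw [dv, pd_add' ((s2 2 0 1).sub (s2 1 0 2)) ((s2 0 1 2).sub (s2 2 1 0)), pd_sub' (s2 2 0 1) (s2 1 0 2),
        pd_sub' (s2 0 1 2) (s2 2 1 0)]
      exact abs_add4 _ _ _ _ ((hbl l hl 2).2.2.2 j 0 1) ((hbl l hl 1).2.2.2 j 0 2) ((hbl l hl 0).2.2.2 j 1 2)
        ((hbl l hl 2).2.2.2 j 1 0)
    · have e : OO v = AA (ch (vort v)) := rfl
      rw [e]
      refine (pdAA_bd (sm_ch hvs) (hA.1 _ (sm_ch hvs)) j x fun l hl => ?_).trans K4
      rw [cv, pd_sub' ((s2 0 0 2).sub (s2 2 0 0)) ((s2 2 1 1).sub (s2 1 1 2)), pd_sub' (s2 0 0 2) (s2 2 0 0),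
        pd_sub' (s2 2 1 1) (s2 1 1 2)]
      exact abs_sub4 _ _ _ _ ((hbl l hl 0).2.2.2 j 0 2) ((hbl l hl 2).2.2.2 j 0 0) ((hbl l hl 2).2.2.2 j 1 1)
        ((hbl l hl 1).2.2.2 j 1 2)

end Pool.Agent.Q257.AXI
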